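import Pool.Agent.Lib.H87G.Defs

/-!
# 2-element partial algebras with polylogarithmic growth and a large constant (MP_73a90e_al, Q1, partial result)

For `k ≥ 1` let `A_k` be the partial algebra on `{0, 1}` with the constant `1`, the addition modulo 2 and one properly
partial operation, the product of the `2 ^ (k + 1) - 2` arguments `x_T` (`T` a nonempty proper subset of `{0, …, k}`),
defined if `x_T = ∏ i ∈ T, a i` for some `a 0, …, a k`. Then for all `n`

  `(2 ^ k - 1) * (⌊log₂ n⌋ - k) ≤ d (A_k) n ≤ ∑ i = 1, …, k, binomial (⌈log₂ n⌉) i`.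

So `d (A_k) n` is polylogarithmic, not in `Ω(n)`, and at least `K * log₂ n` for all large `n`, where `K` is as large as
we like: there is no constant `C` with `d n ≤ C * log₂ n` for all large `n` which works for all 2-element partial algebras
with `d ∉ Ω(n)`. (`A_1` is the Boolean ring.)

Proof. Upper bound: the monomials of degree `1, …, k` in `⌈log₂ n⌉` bits which separate the coordinates; by the partial
product all monomials are generated. Lower bound: the set `S` of all `f : Fin n → Bool` such that `∑ f(x)` over `P` plus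
`∑ f(x)` over `Q` is even, where `P`, `Q` have `2 ^ k - 1` elements, is closed: the restrictions of `a 0, …, a k` to the
at most `2 ^ (k + 1) - 2` points of `P ∪ Q` miss one of the `2 ^ (k + 1)` patterns, and by inclusion and exclusion the
full product is there a sum of proper subproducts. If a generating set `X` has `m` elements, all parities of `X` over
the sections `P` of `2 ^ k - 1` disjoint blocks of `⌊n / 2 ^ k⌋` coordinates are different, so
`⌊n / 2 ^ k⌋ ^ (2 ^ k - 1) ≤ 2 ^ m`.

`POp`, `Closed`, `Generates`, `d` are in `Pool/Agent/Lib/H87G/Defs.lean`.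
-/

set_option autoImplicit false

namespace Pool.Agent.Results.MP_73a90e_al.UnboundedLogFactor

open Pool.H87G

/-- the constant `1` (`true`) -/
def one : POp Bool where
  ar := 0
  dom := Set.univ
  fn := fun _ => true

/-- the sum modulo 2 -/
def add : POp Bool where
  ar := 2
  dom := Set.univ
  fn := fun v => xor (v 0) (v 1)

/-- the nonempty proper subsets of `{0, …, k}` -/
abbrev Sub (k : ℕ) : Type := {T : Finset (Fin (k + 1)) // T.Nonempty ∧ T ≠ Finset.univ}

/-- The partial product: its arguments are numbered by the nonempty proper subsets `T` of `{0, …, k}`; it is defined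
if for some `a 0, …, a k` the argument number `T` is the product of the `a i`, `i ∈ T`, for every `T`; its value is
the product of all arguments (for `k ≥ 1` this is `a 0 ⋯ a k`). -/
noncomputable def prod (k : ℕ) : POp Bool where
  ar := Fintype.card (Sub k)
  dom := {v | ∃ a : Fin (k + 1) → Bool, ∀ T : Sub k, v (Fintype.equivFin (Sub k) T) = decide (∀ i ∈ T.1, a i = true)}
  fn := fun v => decide (∀ j, v j = true)

/-- the partial algebra `A_k` (its operations; the underlying set is `Bool`) -/
def Alg (k : ℕ) : Set (POp Bool) := {one, add, prod k}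

private def mon {Ω ι : Type} (a : ι → Ω → Bool) (T V : Finset ι) : Ω → Bool :=
  fun z => decide ((∀ i ∈ T, a i z = true) ∧ ∀ i ∈ V, a i z = false)

private theorem mon_true {Ω ι : Type} (a : ι → Ω → Bool) (T V : Finset ι) (z : Ω) :
    mon a T V z = true ↔ (∀ i ∈ T, a i z = true) ∧ ∀ i ∈ V, a i z = false := by
  rw [mon, decide_eq_true_iff]

private theorem mon_insert {Ω ι : Type} [DecidableEq ι] (a : ι → Ω → Bool) (T V : Finset ι) (v : ι) :
    mon a T (insert v V) = fun z => xor (mon a T V z) (mon a (insert v T) V z) := by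
  funext z
  simp only [mon, Finset.mem_insert, forall_eq_or_imp]
  by_cases h1 : ∀ i ∈ T, a i z = true <;> by_cases h2 : ∀ i ∈ V, a i z = false <;>
    cases h3 : a v z <;> simp_all

/-- closed under addition modulo 2 -/
private def Xor {Ω : Type} (S : Set (Ω → Bool)) : Prop :=
  ∀ f g : Ω → Bool, f ∈ S → g ∈ S → (fun z => xor (f z) (g z)) ∈ S

private theorem F1 {Ω ι : Type} [DecidableEq ι] {S : Set (Ω → Bool)} (hS : Xor S) (a : ι → Ω → Bool)
    (h : ∀ T, mon a T ∅ ∈ S) : ∀ V T, mon a T V ∈ S := by
  intro V
  induction V using Finset.induction with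
  | empty => exact h
  | insert v V hv ih =>
    intro T
    rw [mon_insert]
    exact hS _ _ (ih T) (ih _)

private theorem F2 {Ω ι : Type} [DecidableEq ι] [Fintype ι] {S : Set (Ω → Bool)} (hS : Xor S) (a : ι → Ω → Bool)
    (h : ∀ T, T ≠ Finset.univ → mon a T ∅ ∈ S) : ∀ V T, T ∪ V ≠ Finset.univ → mon a T V ∈ S := by
  intro V
  induction V using Finset.induction with
  | empty =>
    intro T hT
    exact h T (by simpa using hT)
  | insert v V hv ih =>
    intro T hT
    rw [mon_insert]
    refine hS _ _ (ih T fun h1 => hT ?_) (ih _ fun h1 => hT ?_)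
    · rw [Finset.union_insert, h1]
      simp
    · rw [Finset.union_insert, ← Finset.insert_union, h1]

private theorem F3 {Ω ι : Type} [DecidableEq ι] [Fintype ι] {S : Set (Ω → Bool)} (hS : Xor S) (a : ι → Ω → Bool)
    (h : ∀ T, T ≠ Finset.univ → mon a T ∅ ∈ S) :
    ∀ V T, Disjoint T V → T ∪ V = Finset.univ → mon a T V ∈ S → mon a Finset.univ ∅ ∈ S := by
  intro V
  induction V using Finset.induction with
  | empty =>
    intro T _ hT h1
    rw [Finset.union_empty] at hT
    rwa [hT] at h1
  | insert v V hv ih =>
    intro T hd hT h1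
    rw [Finset.disjoint_insert_right] at hd
    have h2 : mon a T V ∈ S := F2 hS a h V T (by
      intro h3
      have h4 : v ∈ T ∪ V := by rw [h3]; exact Finset.mem_univ v
      rw [Finset.mem_union] at h4
      rcases h4 with h4 | h4
      · exact hd.1 h4
      · exact hv h4)
    have h3 : mon a (insert v T) V ∈ S := by
      have h4 := hS _ _ h2 h1
      rw [mon_insert] at h4
      have h5 : (fun z => xor (mon a T V z) (xor (mon a T V z) (mon a (insert v T) V z))) =
          mon a (insert v T) V := by
        funext z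
        cases mon a T V z <;> cases mon a (insert v T) V z <;> rfl
      rwa [h5] at h4
    refine ih (insert v T) ?_ ?_ h3
    · rw [Finset.disjoint_insert_left]
      exact ⟨hv, hd.2⟩
    · rw [Finset.insert_union, ← Finset.union_insert, hT]

private def chi (b : Bool) : ZMod 2 := if b then 1 else 0

private theorem chi_xor (b c : Bool) : chi (xor b c) = chi b + chi c := by
  cases b <;> cases c <;> decide

/-- the family of all `f` with an even sum over the two sections `u` and `w` of `e` -/
private def Par {n j b : ℕ} (e : Fin j × Fin b → Fin n) (u w : Fin j → Fin b) : Set (Fin n → Bool) :=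
  {f | ∑ i, (chi (f (e (i, u i))) + chi (f (e (i, w i)))) = 0}

private theorem par_xor {n j b : ℕ} (e : Fin j × Fin b → Fin n) (u w : Fin j → Fin b) : Xor (Par e u w) := by
  intro f g hf hg
  simp only [Par, Set.mem_ofPred_eq] at hf hg ⊢
  have h1 : ∀ i, (chi (xor (f (e (i, u i))) (g (e (i, u i)))) + chi (xor (f (e (i, w i))) (g (e (i, w i))))) =
      (chi (f (e (i, u i))) + chi (f (e (i, w i)))) + (chi (g (e (i, u i))) + chi (g (e (i, w i)))) := by
    intro i
    rw [chi_xor, chi_xor]
    ring
  rw [Finset.sum_congr rfl fun i _ => h1 i, Finset.sum_add_distrib, hf, hg, add_zero]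

private theorem single_sub {k : ℕ} (hk : 1 ≤ k) (i : Fin (k + 1)) :
    ({i} : Finset (Fin (k + 1))).Nonempty ∧ ({i} : Finset (Fin (k + 1))) ≠ Finset.univ := by
  refine ⟨Finset.singleton_nonempty i, fun h => ?_⟩
  have h1 := congrArg Finset.card h
  rw [Finset.card_singleton, Finset.card_univ, Fintype.card_fin] at h1
  omega

private theorem closed_of {k : ℕ} {ι : Type} {S : Set (ι → Bool)} (h1 : (fun _ => true) ∈ S) (h2 : Xor S)
    (h3 : ∀ v : Sub k → ι → Bool, (∀ T, v T ∈ S) →
      (∀ t, ∃ a : Fin (k + 1) → Bool, ∀ T, v T t = decide (∀ i ∈ T.1, a i = true)) →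
      (fun t => decide (∀ T, v T t = true)) ∈ S) : Closed (Alg k) S := by
  intro f hf
  rcases hf with rfl | rfl | rfl
  · intro s _ _
    exact h1
  · intro s hs _
    exact h2 _ _ (hs (0 : Fin 2)) (hs (1 : Fin 2))
  · intro (s : Fin (Fintype.card (Sub k)) → ι → Bool) (hs : ∀ i, s i ∈ S)
      (ht : ∀ t, ∃ a : Fin (k + 1) → Bool, ∀ T : Sub k, s (Fintype.equivFin (Sub k) T) t =
        decide (∀ i ∈ T.1, a i = true))
    have h4 := h3 (fun T => s (Fintype.equivFin (Sub k) T)) (fun T => hs _) ht
    have h5 : (fun t => decide (∀ T, s (Fintype.equivFin (Sub k) T) t = true)) =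
        fun t => decide (∀ j, s j t = true) := by
      funext t
      rw [decide_eq_decide]
      exact ⟨fun h j => by
        obtain ⟨T, rfl⟩ := (Fintype.equivFin (Sub k)).surjective j
        exact h T, fun h T => h _⟩
    rw [h5] at h4
    exact h4

private theorem of_closed {k : ℕ} {ι : Type} {S : Set (ι → Bool)} (hc : Closed (Alg k) S) :
    (fun _ => true) ∈ S ∧ Xor S ∧ ∀ v : Sub k → ι → Bool, (∀ T, v T ∈ S) →
      (∀ t, ∃ a : Fin (k + 1) → Bool, ∀ T, v T t = decide (∀ i ∈ T.1, a i = true)) →
      (fun t => decide (∀ T, v T t = true)) ∈ S := by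
  refine ⟨?_, ?_, ?_⟩
  · exact hc one (Or.inl rfl) (fun i => i.elim0) (fun i => i.elim0) (fun _ => Set.mem_univ _)
  · intro f g hf hg
    exact hc add (Or.inr (Or.inl rfl)) (![f, g] : Fin 2 → ι → Bool) (by
      intro (i : Fin 2)
      fin_cases i
      · exact hf
      · exact hg) (fun _ => Set.mem_univ _)
  · intro v hv ht
    have h4 := hc (prod k) (Or.inr (Or.inr rfl))
      (fun (j : Fin (Fintype.card (Sub k))) => v ((Fintype.equivFin (Sub k)).symm j)) (fun j => hv _) (by
        intro t
        obtain ⟨a, ha⟩ := ht t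
        refine ⟨a, fun T => ?_⟩
        have h6 := ha T
        show v ((Fintype.equivFin (Sub k)).symm (Fintype.equivFin (Sub k) T)) t = _
        rw [Equiv.symm_apply_apply]
        exact h6)
    have h5 : (fun t => decide (∀ T, v T t = true)) =
        fun t => decide (∀ j : Fin (Fintype.card (Sub k)), v ((Fintype.equivFin (Sub k)).symm j) t = true) := by
      funext t
      rw [decide_eq_decide]
      exact ⟨fun h j => h _, fun h T => by
        have h7 := h (Fintype.equivFin (Sub k) T)
        rwa [Equiv.symm_apply_apply] at h7⟩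
    rw [h5]
    exact h4

private theorem prod_eq {k : ℕ} (hk : 1 ≤ k) {ι : Type} {v : Sub k → ι → Bool} {a : Fin (k + 1) → ι → Bool}
    (h : ∀ t T, v T t = decide (∀ i ∈ T.1, a i t = true)) :
    (fun t => decide (∀ T, v T t = true)) = mon a Finset.univ ∅ := by
  funext t
  simp only [mon]
  rw [decide_eq_decide]
  constructor
  · intro h0
    refine ⟨fun i _ => ?_, fun i hi => absurd hi (Finset.notMem_empty i)⟩
    have h1 := h0 ⟨{i}, single_sub hk i⟩
    rw [h] at h1
    exact of_decide_eq_true h1 i (Finset.mem_singleton_self i)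
  · rintro ⟨h0, -⟩ T
    rw [h]
    exact decide_eq_true fun i _ => h0 i (Finset.mem_univ i)

private theorem par_closed {k n j b : ℕ} (hk : 1 ≤ k) (hj : 2 * j < 2 ^ (k + 1)) (e : Fin j × Fin b → Fin n)
    (u w : Fin j → Fin b) : Closed (Alg k) (Par e u w) := by
  have htrue : (fun _ : Fin n => true) ∈ Par e u w := by
    simp only [Par, Set.mem_ofPred_eq]
    refine Finset.sum_eq_zero fun i _ => ?_
    decide
  refine closed_of htrue (par_xor e u w) fun v hv ht => ?_
  choose a ha using ht
  rw [prod_eq hk (a := fun i t => a t i) ha]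
  have key : ∀ T : Finset (Fin (k + 1)), T ≠ Finset.univ → mon (fun i t => a t i) T ∅ ∈ Par e u w := by
    intro T hT
    by_cases hT0 : T.Nonempty
    · have h2 : v ⟨T, hT0, hT⟩ = mon (fun i t => a t i) T ∅ := by
        funext t
        rw [ha t ⟨T, hT0, hT⟩]
        simp [mon]
      rw [← h2]
      exact hv _
    · rw [Finset.not_nonempty_iff_eq_empty] at hT0
      have h2 : mon (fun (i : Fin (k + 1)) (t : Fin n) => a t i) T ∅ = fun _ => true := by
        funext t
        simp [mon, hT0]
      rw [h2]
      exact htrue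
  have hmiss : ∃ c : Fin (k + 1) → Bool, ∀ x : Fin j ⊕ Fin j,
      a (x.elim (fun i => e (i, u i)) (fun i => e (i, w i))) ≠ c := by
    by_contra hcon
    push Not at hcon
    have hsurj : Function.Surjective fun x : Fin j ⊕ Fin j =>
        a (x.elim (fun i => e (i, u i)) (fun i => e (i, w i))) := hcon
    have h1 := Fintype.card_le_of_surjective _ hsurj
    rw [Fintype.card_sum, Fintype.card_fun, Fintype.card_fin, Fintype.card_fin, Fintype.card_bool] at h1
    omega
  obtain ⟨c, hc⟩ := hmiss
  refine F3 (par_xor e u w) (fun (i : Fin (k + 1)) t => a t i) key (Finset.univ.filter fun i => c i = false)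
    (Finset.univ.filter fun i => c i = true) ?_ ?_ ?_
  · rw [Finset.disjoint_left]
    intro i hi hi'
    simp only [Finset.mem_filter, Finset.mem_univ, true_and] at hi hi'
    rw [hi] at hi'
    exact Bool.noConfusion hi'
  · ext i
    simp only [Finset.mem_union, Finset.mem_filter, Finset.mem_univ, true_and, iff_true]
    cases c i <;> simp
  · have hz : ∀ x : Fin j ⊕ Fin j, mon (fun (i : Fin (k + 1)) t => a t i) (Finset.univ.filter fun i => c i = true)
        (Finset.univ.filter fun i => c i = false) (x.elim (fun i => e (i, u i)) (fun i => e (i, w i))) = false := by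
      intro x
      rw [mon, decide_eq_false_iff_not]
      rintro ⟨h1, h2⟩
      refine hc x (funext fun i => ?_)
      cases hci : c i with
      | true => exact h1 i (by simp [hci])
      | false => exact h2 i (by simp [hci])
    simp only [Par, Set.mem_ofPred_eq]
    refine Finset.sum_eq_zero fun i _ => ?_
    have h1 := hz (Sum.inl i)
    have h2 := hz (Sum.inr i)
    simp only [Sum.elim_inl, Sum.elim_inr] at h1 h2
    rw [h1, h2]
    decide

/-- the lower bound -/
private theorem lower {k n m : ℕ} (hk : 1 ≤ k) {X : Finset (Fin n → Bool)} (hX : X.card = m)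
    (hgen : Generates (Alg k) (X : Set (Fin n → Bool))) : (2 ^ k - 1) * (Nat.log 2 n - k) ≤ m := by
  obtain ⟨j, hj⟩ : ∃ j, j = 2 ^ k - 1 := ⟨_, rfl⟩
  obtain ⟨b, hb⟩ : ∃ b, b = n / 2 ^ k := ⟨_, rfl⟩
  rw [← hj]
  have hpos : 0 < 2 ^ k := Nat.two_pow_pos k
  have hjb : j * b ≤ n := by
    calc j * b ≤ 2 ^ k * b := Nat.mul_le_mul_right b (by omega)
      _ ≤ n := by rw [hb]; exact Nat.mul_div_le n (2 ^ k)
  obtain ⟨e⟩ : Nonempty (Fin j × Fin b ↪ Fin n) := by
    apply Function.Embedding.nonempty_of_card_le
    rw [Fintype.card_prod, Fintype.card_fin, Fintype.card_fin, Fintype.card_fin]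
    exact hjb
  have hle : b ^ j ≤ 2 ^ m := by
    by_contra hcon
    push Not at hcon
    obtain ⟨u, w, huw, heq⟩ := Fintype.exists_ne_map_eq_of_card_lt
      (fun (u : Fin j → Fin b) (f : X) => ∑ i, chi (f.1 (e (i, u i)))) (by
        rw [Fintype.card_fun, Fintype.card_fun, ZMod.card, Fintype.card_fin, Fintype.card_fin, Fintype.card_coe, hX]
        exact hcon)
    have hsub : (X : Set (Fin n → Bool)) ⊆ Par e u w := by
      intro f hf
      have h1 := congrFun heq ⟨f, hf⟩
      simp only [Par, Set.mem_ofPred_eq]
      rw [Finset.sum_add_distrib]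
      simp only at h1
      rw [h1]
      exact CharTwo.add_self_eq_zero _
    have huniv := hgen _ (par_closed hk (by rw [pow_succ]; omega) e u w) hsub
    obtain ⟨i0, hi0⟩ := Function.ne_iff.1 huw
    have h2 : (fun t => decide (t = e (i0, u i0))) ∈ Par e u w := by rw [huniv]; exact Set.mem_univ _
    simp only [Par, Set.mem_ofPred_eq] at h2
    have h3 : ∀ i, chi (decide (e (i, u i) = e (i0, u i0))) + chi (decide (e (i, w i) = e (i0, u i0))) =
        if i = i0 then 1 else 0 := by
      intro i
      by_cases hi : i = i0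
      · subst hi
        have h4 : ¬ e (i, w i) = e (i, u i) := by
          intro h5
          have h6 := e.injective h5
          rw [Prod.mk.injEq] at h6
          exact hi0 h6.2.symm
        simp [chi, h4]
      · have h4 : ¬ e (i, w i) = e (i0, u i0) := by
          intro h5
          have h6 := e.injective h5
          rw [Prod.mk.injEq] at h6
          exact hi h6.1
        have h7 : ¬ e (i, u i) = e (i0, u i0) := by
          intro h5
          have h6 := e.injective h5
          rw [Prod.mk.injEq] at h6
          exact hi h6.1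
        simp [chi, h4, h7, hi]
    rw [Finset.sum_congr rfl fun i _ => h3 i, Finset.sum_ite_eq' Finset.univ i0] at h2
    simp at h2
  by_cases hkn : Nat.log 2 n ≤ k
  · rw [Nat.sub_eq_zero_of_le hkn, mul_zero]
    exact Nat.zero_le m
  push Not at hkn
  have hn : n ≠ 0 := by
    rintro rfl
    simp at hkn
  have hb2 : 2 ^ (Nat.log 2 n - k) ≤ b := by
    rw [hb, Nat.le_div_iff_mul_le hpos, ← pow_add, Nat.sub_add_cancel hkn.le]
    exact Nat.pow_log_le_self 2 hn
  have h8 : 2 ^ ((Nat.log 2 n - k) * j) ≤ 2 ^ m := by
    rw [pow_mul]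
    exact (Nat.pow_le_pow_left hb2 j).trans hle
  rw [mul_comm]
  exact (Nat.pow_le_pow_iff_right (by norm_num)).1 h8

/-- the monomials in `s` bits generate everything -/
private theorem all_mon {k n s : ℕ} (hk : 1 ≤ k) (φ : Fin n ↪ (Fin s → Bool)) {S : Set (Fin n → Bool)}
    (hS : Closed (Alg k) S)
    (hX : ∀ T : Finset (Fin s), T.Nonempty → T.card ≤ k → mon (fun i t => φ t i) T ∅ ∈ S) : S = Set.univ := by
  obtain ⟨h1, h2, h3⟩ := of_closed hS
  have hall : ∀ m, ∀ T : Finset (Fin s), T.card = m → mon (fun i t => φ t i) T ∅ ∈ S := by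
    intro m
    induction m using Nat.strong_induction_on with
    | _ m ih =>
      intro T hT
      by_cases hT0 : T.Nonempty
      swap
      · rw [Finset.not_nonempty_iff_eq_empty] at hT0
        have h4 : mon (fun (i : Fin s) (t : Fin n) => φ t i) T ∅ = fun _ => true := by
          funext t
          simp [mon, hT0]
        rw [h4]
        exact h1
      by_cases hTk : T.card ≤ k
      · exact hX T hT0 hTk
      push Not at hTk
      obtain ⟨e⟩ : Nonempty (Fin (k + 1) ↪ T) := by
        apply Function.Embedding.nonempty_of_card_le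
        rw [Fintype.card_fin, Fintype.card_coe]
        omega
      have he : Function.Injective fun i => ((e i : T) : Fin s) := fun x y hxy => e.injective (Subtype.ext hxy)
      obtain ⟨p, hp⟩ : ∃ p : Fin s → Fin (k + 1), ∀ i, p (e i) = i :=
        ⟨Function.invFun fun i => ((e i : T) : Fin s), Function.leftInverse_invFun he⟩
      have h4 := h3 (fun J => mon (fun i t => φ t i) (T.filter fun x => p x ∈ J.1) ∅) (fun J => by
        obtain ⟨i, hi⟩ : ∃ i, i ∉ J.1 := by
          by_contra hcon
          push Not at hcon
          exact J.2.2 (Finset.eq_univ_iff_forall.2 hcon)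
        refine ih _ ?_ _ rfl
        rw [← hT]
        apply Finset.card_lt_card
        rw [Finset.filter_ssubset]
        exact ⟨e i, (e i).2, by rw [hp]; exact hi⟩) (fun t => by
        refine ⟨fun i => decide (∀ x ∈ T, p x = i → φ t x = true), fun J => ?_⟩
        simp only [mon]
        rw [decide_eq_decide]
        constructor
        · rintro ⟨h5, -⟩ i hi
          rw [decide_eq_true_iff]
          intro x hx hxi
          exact h5 x (Finset.mem_filter.2 ⟨hx, by rw [hxi]; exact hi⟩)
        · intro h5
          refine ⟨fun x hx => ?_, fun i hi => absurd hi (Finset.notMem_empty i)⟩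
          rw [Finset.mem_filter] at hx
          exact of_decide_eq_true (h5 _ hx.2) x hx.1 rfl)
      have h5 : (fun t => decide (∀ J : Sub k, mon (fun i t => φ t i) (T.filter fun x => p x ∈ J.1) ∅ t = true)) =
          mon (fun i t => φ t i) T ∅ := by
        funext t
        rw [Bool.eq_iff_iff, decide_eq_true_iff, mon_true]
        constructor
        · intro h6
          refine ⟨fun x hx => ?_, fun i hi => absurd hi (Finset.notMem_empty i)⟩
          have h7 := h6 ⟨{p x}, single_sub hk (p x)⟩
          rw [mon_true] at h7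
          exact h7.1 x (Finset.mem_filter.2 ⟨hx, Finset.mem_singleton_self _⟩)
        · rintro ⟨h6, -⟩ J
          rw [mon_true]
          exact ⟨fun x hx => h6 x (Finset.mem_filter.1 hx).1, fun i hi => absurd hi (Finset.notMem_empty i)⟩
      rw [h5] at h4
      exact h4
  have hpt : ∀ t0 : Fin n, (fun t => decide (t = t0)) ∈ S := by
    intro t0
    have h4 := F1 h2 (fun (i : Fin s) (t : Fin n) => φ t i) (fun T => hall _ T rfl)
      (Finset.univ.filter fun i => φ t0 i = false) (Finset.univ.filter fun i => φ t0 i = true)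
    have h5 : mon (fun (i : Fin s) (t : Fin n) => φ t i) (Finset.univ.filter fun i => φ t0 i = true)
        (Finset.univ.filter fun i => φ t0 i = false) = fun t => decide (t = t0) := by
      funext t
      simp only [mon, Finset.mem_filter, Finset.mem_univ, true_and]
      rw [decide_eq_decide]
      constructor
      · rintro ⟨h6, h7⟩
        apply φ.injective
        funext i
        cases hi : φ t0 i with
        | true => exact h6 i hi
        | false => exact h7 i hi
      · rintro rfl
        exact ⟨fun i hi => hi, fun i hi => hi⟩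
    rw [h5] at h4
    exact h4
  have hset : ∀ A : Finset (Fin n), (fun t => decide (t ∈ A)) ∈ S := by
    intro A
    induction A using Finset.induction with
    | empty =>
      have h4 := h2 _ _ h1 h1
      simpa using h4
    | insert a A ha ih =>
      have h4 := h2 _ _ (hpt a) ih
      have h5 : (fun t => xor (decide (t = a)) (decide (t ∈ A))) = fun t => decide (t ∈ insert a A) := by
        funext t
        by_cases h6 : t = a
        · subst h6
          simp [ha]
        · simp [h6]
      rwa [h5] at h4
  apply Set.eq_univ_of_forall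
  intro f
  have h4 := hset (Finset.univ.filter fun t => f t = true)
  have h5 : (fun t => decide (t ∈ Finset.univ.filter fun t => f t = true)) = f := by
    funext t
    simp
  rwa [h5] at h4

private theorem upper {k n : ℕ} (hk : 1 ≤ k) :
    ∃ X : Finset (Fin n → Bool), X.card ≤ ∑ i ∈ Finset.Icc 1 k, (Nat.clog 2 n).choose i ∧
      Generates (Alg k) (X : Set (Fin n → Bool)) := by
  obtain ⟨φ⟩ : Nonempty (Fin n ↪ (Fin (Nat.clog 2 n) → Bool)) := by
    apply Function.Embedding.nonempty_of_card_le
    rw [Fintype.card_fun, Fintype.card_fin, Fintype.card_fin, Fintype.card_bool]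
    exact Nat.le_pow_clog (by norm_num) n
  refine ⟨(Finset.Icc 1 k).biUnion fun i => ((Finset.univ : Finset (Fin (Nat.clog 2 n))).powersetCard i).image
    fun T => mon (fun i t => φ t i) T ∅, ?_, ?_⟩
  · refine Finset.card_biUnion_le.trans (Finset.sum_le_sum fun i _ => ?_)
    refine Finset.card_image_le.trans ?_
    rw [Finset.card_powersetCard, Finset.card_univ, Fintype.card_fin]
  · intro S hS hX
    refine all_mon hk φ hS fun T hT hTk => hX ?_
    rw [Finset.mem_coe, Finset.mem_biUnion]
    refine ⟨T.card, Finset.mem_Icc.2 ⟨hT.card_pos, hTk⟩, ?_⟩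
    rw [Finset.mem_image]
    exact ⟨T, Finset.mem_powersetCard.2 ⟨Finset.subset_univ T, rfl⟩, rfl⟩

/-- For every `k ≥ 1` and every `n` the least size `d (Alg k) n` of a generating set of `A_k ^ n` satisfies
`(2 ^ k - 1) * (⌊log₂ n⌋ - k) ≤ d (Alg k) n ≤ ∑ i = 1, …, k, binomial ⌈log₂ n⌉ i`. -/
theorem result : ∀ k : ℕ, 1 ≤ k → ∀ n : ℕ,
    (2 ^ k - 1) * (Nat.log 2 n - k) ≤ d (Alg k) n ∧
      d (Alg k) n ≤ ∑ i ∈ Finset.Icc 1 k, (Nat.clog 2 n).choose i := by
  intro k hk n
  obtain ⟨X, hX1, hX2⟩ := upper (n := n) hk
  constructor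
  · have hne : {m | ∃ X : Finset (Fin n → Bool), X.card = m ∧
      Generates (Alg k) (X : Set (Fin n → Bool))}.Nonempty := ⟨X.card, X, rfl, hX2⟩
    obtain ⟨Y, hY1, hY2⟩ := Nat.sInf_mem hne
    exact lower hk hY1 hY2
  · have hle : d (Alg k) n ≤ X.card := Nat.sInf_le ⟨X, rfl, hX2⟩
    exact hle.trans hX1

end Pool.Agent.Results.MP_73a90e_al.UnboundedLogFactor
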