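import Pool.Agent.Lib.H99K.Example
import Pool.Agent.Lib.H99M.Main

/-!
# Growth at most `(log n) ^ ((N - 1) / 2 + o (1))` for the 2-element partial algebras of level `N` (MP_73a90e_al, Q1, partial result)

Let `F` be any family of partial operations on `{0, 1}` and `N ≥ 3`. Call `N` a level of `F` if the power with the index
set `{0, 1}^N` is generated by the functions `{0, 1}^N → {0, 1}` that do not depend on all `N` variables (`Lev N`). There
is a constant `K`, depending on `N` only, such that the least size `d (n)` of a generating set of the `n`-th power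
satisfies, for all `n ≥ 2`,

  `d (n) ≤ K * (log₂ n) ^ ((N - 1) / 2) * 2 ^ (K * √(log₂ (log₂ n)))`,

and for `N = 3` explicitly `d (n) ≤ 2 ^ 35 * log₂ n * 2 ^ (10 * √(log₂ (log₂ n)))`. Every family `F` with `d (n) < n / 2` for some `n ≥ 3` has a level `N ≥ 3` (this comes from the proof of `GapTheorem`,
beside this file), so the theorem is about all 2-element partial algebras with `d (n)` not in `Ω (n)`. The algebras `A_k`
of `UnboundedLogFactor` (constant `1`, addition modulo 2, partial product of `k + 1` arguments) have the level `k + 1`.

Background. If `N` is a level then `d (n)` is at most of order `(log n) ^ (N - 1)`: code the coordinates by `⌈log₂ n⌉` bits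
and take the functions of `N - 1` bits. So a level `2` gives `O (log n)`, and the level `3` is the first case in which the
growth was open between `log n` and `(log n) ^ 2`; here it is `(log n) ^ (1 + o (1))`.

Proof. A system of level `N` on a set `Ω` is a class of known words `Ω → X`, closed under functions, such that the word of
the letters `w 1, …, w N` is known if any `N - 1` of them are known together (`H38S/Sys.lean`). A closed family of Boolean
functions gives such a system if `N` is a level.

* Level 3, two words (`H87L/Ring.lean`, `H87L/Geo.lean`, `H38S/Three.lean`). Let `x`, `y` be known. For functions `p` of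
  `x` with values in `ℤ / 3` and `q` of `y` with values in `ℤ / 2` write `R (p, q)` if `(p (x), q (y))` is known; the
  sections of `R` are groups. If `R (p_i, q_j)` for `i ≠ j`, `R (p_1 + p_2, q_1 + q_2)` and `R (p_2 + p_3, q_2 + q_3)` then
  `R (p_2, q_2)` (for equal characteristics this is false). So if `R (p_m, q_l)` for all `m ≠ l`, then the sets `S` with
  `R (∑ S p, ∑ S q)` form a ring of sets, and few of them generate all `R (p_m, q_m)`. For letters indexed by the grid
  `G = {0, …, C - 1} ^ k` the pairs `(i, j)` are obtained in the order of `|i - j|²`: those with given `i + j` and `|i - j|²`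
  form a matching whose cross pairs are at smaller distance (a construction in the style of Behrend and of Ruzsa and
  Szemerédi). This costs `c (G) = |G| ^ (1 + o (1))` relations instead of `|G|²`.
* `H87M/Ctx.lean`: let any `m - 1` of the words `x^1, …, x^m` be known together, in a system of level `m + 1`. For slots
  `i ≠ j` and functions `e_s` of `x^s`, `s ≠ i, j`, the functions of `(x^i, x^j)` that are known together with all `e_s` form
  a system of level `3`.
* `H87M/Step.lean`, `H99M/Iter.lean`: so an index in `G` that occurs in the slots `i` and `j` only costs the factor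
  `3 c (G)`. With one index for each of the pairs `(s, s + 1 mod m)` every slot has `|G|²` letters (for `m = 3` this is the
  pattern `x_ab, y_bc, z_ca` of the matrix multiplication): `m` words of `l` letters are joined by `l ^ (m / 2 + o (1))`
  relations.
* `H38U/Rec.lean`, `H65Q/Growth.lean`, `H99M/Main.lean`: let `w` be a word of `l` letters in `{0, 1}^k`. The functions `v` of `{0, 1}^k` whose long version
  `(v (w_h))_h` is known form a system of level `N - 1` as soon as finitely many joins of `N - 1` long words are known.
  So the numbers `T_N (L)` of words that generate the word of `L` bits satisfy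
  `T_N (k l) ≤ T_(N-1) (k) * T_N (l) + W (k) * (k l) ^ ((N - 1) / 2 + o (1))` (up to a fixed factor of the lengths),
  and with a fixed large `k` this gives `T_N (L) = L ^ ((N - 1) / 2 + o (1))` by induction on `N`.

`POp`, `Closed`, `Generates`, `d` are in `Pool/Agent/Lib/H87G/Defs.lean`, `Lev` in `Pool/Agent/Lib/H87L/Level.lean`, and
`one`, `add`, `prod`, `Alg` in `Pool/Agent/Results/MP_73a90e_al/UnboundedLogFactor.lean`.
-/

set_option autoImplicit false

namespace Pool.Agent.Results.MP_73a90e_al.AlmostLogarithmic

open Pool.H87G

/-- If the Boolean functions of `N ≥ 3` variables that do not depend on all of them generate the power with the index set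
`{0, 1}^N`, then `d (n) ≤ K * (log₂ n) ^ ((N - 1) / 2) * 2 ^ (K * √(log₂ (log₂ n)))` for all `n ≥ 2`, with a constant `K`
which depends on `N` only; for `N = 3` the constants are `2 ^ 35` and `10`. Every family of partial operations has such an `N` or has `d (n) ≥ n / 2` for all `n ≥ 3`; the
algebra `A_k` has `N = k + 1`. -/
theorem result :
    (∀ N : ℕ, 3 ≤ N → ∃ K : ℝ, 0 < K ∧ ∀ F : Set (POp Bool), Generates F (H87L.Lev N) → ∀ n : ℕ, 2 ≤ n →
      (d F n : ℝ) ≤ K * Real.logb 2 n ^ (((N : ℝ) - 1) / 2) * 2 ^ (K * √(Real.logb 2 (Real.logb 2 n)))) ∧
    (∀ F : Set (POp Bool), Generates F (H87L.Lev 3) → ∀ n : ℕ, 2 ≤ n →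
      (d F n : ℝ) ≤ 2 ^ 35 * Real.logb 2 n * 2 ^ (10 * √(Real.logb 2 (Real.logb 2 n)))) ∧
    (∀ F : Set (POp Bool), (∀ n : ℕ, 3 ≤ n → n ≤ 2 * d F n) ∨ ∃ N : ℕ, 3 ≤ N ∧ Generates F (H87L.Lev N)) ∧
    ∀ k : ℕ, 1 ≤ k → Generates (UnboundedLogFactor.Alg k) (H87L.Lev (k + 1)) :=
  ⟨fun N hN => H99M.main N hN, fun _ hF n hn => H87L.main hF n hn, H99K.all.2.1, fun _ hk => H99K.alg_level hk⟩

end Pool.Agent.Results.MP_73a90e_al.AlmostLogarithmic
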