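import Pool.Agent.Lib.H78U.Univ

/-!
# An explicit sequence of partial algebras on `{0, 1}` which decides Q1 (MP_73a90e_al, Q1, reduction)

Let `Lev N` be the set of the functions `{0, 1}^N → {0, 1}` that do not depend on all of their `N` variables. For `N ≥ 2`
let `B N` be the partial algebra on `{0, 1}` which has, for every function `G : {0, 1}^N → {0, 1}`, the partial operation
`f_G` whose arguments are numbered by the functions `H` in `Lev N`; it is defined iff there is an `a` in `{0, 1}^N` such
that the argument number `H` is `H a` for every `H`, and then its value is `G a`. These are finitely many operations.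

Write `d_A (n)` for the least size of a generating set of `A^n`. Then

* no `B N`, `N ≥ 2`, has `d (n)` in `Ω (n)`, and `d (n)` increases (weakly) with `N`, for every `n`;
* the sequence is cofinal: for every partial algebra `A` with two elements (any signature) with `d_A (n) < n / 2` for one
  `n ≥ 3`, in particular for every `A` with `d_A (n)` not in `Ω (n)`, there is an `N` with `d_A (n) ≤ d_(B N) (n)` for
  every `n`;
* so Q1 has the answer yes iff `d_(B N) (n)` is not in `O (log n)` for all large `N` (and the answer no iff it is in
  `O (log n)` for all `N`).

Proof. If `Lev N` generates the power of `A` with the index set `{0, 1}^N`, then every family of functions which is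
closed under the operations of `A` is closed under those of `B N` (pull back along the `a` of the definition), so
`d_A ≤ d_(B N)`. `Lev N` generates this power for `A = B N` (apply `f_G` to the functions of `Lev N` themselves). If `Lev N`
generates the power with the index set `{0, 1}^N`, then `Lev (N + 1)` generates the one with `{0, 1}^(N + 1)` (`C1` of
`H87G`: a maximal family of functions of the `N + 1` bits which may be put into the rule is a Boolean algebra). If
`d_A (n) < n / 2` for one `n ≥ 3`, then there is such an `N` (`H87L.exists_level`, the dichotomy in `AlmostLogarithmic`).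

`POp`, `Closed`, `Generates`, `d` are in `Pool/Agent/Lib/H87G/Defs.lean`, `Lev` in `Pool/Agent/Lib/H87L/Level.lean`; `op`, `B`,
`Linear`, `Logarithmic` and `Question` are in `Pool/Agent/Lib/H78U/Univ.lean`.
-/

set_option autoImplicit false

namespace Pool.Agent.Results.MP_73a90e_al.UniversalSequence

open Pool.H87G H78U

/-- The partial algebras `B N` (finitely many operations, not of linear growth, growth increasing with `N`) are cofinal
among the 2-element partial algebras of sublinear growth, and Q1 (`Question`) is the question whether their growth is not
in `O (log n)` for all large `N`. -/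
theorem result :
    (∀ N, 2 ≤ N → (B N).Finite ∧ ¬ Linear (B N) ∧ ∀ n, d (B N) n ≤ d (B (N + 1)) n) ∧
    (∀ (A : Type) (F : Set (POp A)), Nat.card A = 2 → (∃ n, 3 ≤ n ∧ 2 * d F n < n) →
      ∃ N, 2 ≤ N ∧ ∀ n, d F n ≤ d (B N) n) ∧
    (Question ↔ ∃ N, ∀ M, N ≤ M → ¬ Logarithmic (B M)) :=
  ⟨fun N hN => ⟨finite_B N, not_linear_B hN, fun n => B_mono hN (Nat.le_succ N) n⟩,
    fun _ _ hA ⟨_, hn, hd⟩ => exists_B hA hn hd, question⟩

end Pool.Agent.Results.MP_73a90e_al.UniversalSequence
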